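import Pool.Agent.H84.Sq.Iso

set_option autoImplicit false

/-!
# Convex figures near a square: `S(F) = 2` exactly for squares
-/

namespace Pool.Agent.Results.MP_6c2b1b_co.IsolatedSquare

open Pool.Agent.H90.Clone Pool.Agent.H21.Tri Pool.Agent.H50.CP Pool.Agent.H84.Sq MeasureTheory
  Pointwise Set Complex

lemma det_ne_sq {u v : ℂ} (hu : u ≠ 0) (h1 : ‖u‖ = ‖v‖) (h2 : ip u v = 0) : det u v ≠ 0 := by
  have hsq : ∀ z : ℂ, ‖z‖ ^ 2 = z.re ^ 2 + z.im ^ 2 := by
    intro z
    rw [Complex.sq_norm, Complex.normSq_apply]; ring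
  have hpos : 0 < u.re ^ 2 + u.im ^ 2 := by
    have h := norm_pos_iff.mpr hu
    rw [← hsq]; positivity
  have hpos' : 0 < v.re ^ 2 + v.im ^ 2 := by
    have h := norm_pos_iff.mpr hu
    rw [← hsq, ← h1]; positivity
  rcases eq_I_of_orth hu h1 h2 with h | h
  · rw [h]
    unfold det
    simp only [mul_re, mul_im, I_re, I_im]
    intro h'
    nlinarith
  · rw [h]
    unfold det
    simp only [mul_re, mul_im, I_re, I_im]
    intro h'
    nlinarith

/-- Let `Q = Par o u v` be a square. There is `ε > 0` such that every convex figure `F` with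
`Q ⊆ F` and `F` inside a translate of `(1 + ε) Q` has `S(F) ≤ 2`, with `S(F) = 2` if and only if
`F` is itself a square; and if `F` is not a square then two congruent clones of `F` of ratio
more than `1/2` can be packed in `F`. -/
theorem result (o u v : ℂ) (hu : u ≠ 0) (huv : ‖u‖ = ‖v‖) (horth : ip u v = 0) :
    ∃ ε : ℝ, 0 < ε ∧ ∀ (F : Set ℂ) (o' : ℂ), IsConvexFigure F →
      Par o u v ⊆ F → F ⊆ Par o' ((1 + ε : ℝ) * u) ((1 + ε : ℝ) * v) →
        Admissible F 2 ∧ (IsLeast {S : ℝ | Admissible F S} 2 ↔ IsSq F) ∧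
        (¬ IsSq F → TwoFit F) := by
  obtain ⟨e1, p1, H1⟩ := near_adm' (shape_par (det_ne_sq hu huv horth))
  have H2' : ∃ ε₀ : ℝ, 0 < ε₀ ∧ ∀ ε : ℝ, 0 ≤ ε → ε ≤ ε₀ → ∀ (F : Set ℂ) (o' : ℂ),
      IsConvexFigure F → Par o u v ⊆ F →
      F ⊆ Par o' (((1 + ε : ℝ) : ℂ) * u) (((1 + ε : ℝ) : ℂ) * v) → ¬ Two F → IsSq F := by
    rcases eq_I_of_orth hu huv horth with h | h
    · subst h
      exact iso_core o u hu
    · have hv : v ≠ 0 := by
        rintro rfl
        simp at h
        exact hu h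
      subst h
      obtain ⟨e, p, H⟩ := iso_core o v hv
      refine ⟨e, p, fun ε h1 h2 F o' hF hin hout h3 => ?_⟩
      rw [par_swap] at hin hout
      exact H ε h1 h2 F o' hF hin hout h3
  obtain ⟨e2, p2, H2⟩ := H2'
  refine ⟨min e1 e2, lt_min p1 p2, fun F o' hF hin hout => ?_⟩
  have hm : 0 ≤ min e1 e2 := (lt_min p1 p2).le
  have h1 := H1 _ hm (min_le_left _ _) F o o' hF (by rw [← par_translate]; exact hin)
    (by rw [← par_hom]; exact hout)
  have h4 := least_iff hF h1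
  have h5 : ¬ TwoFit F → IsSq F := by
    intro h
    rw [twoFit_iff hF] at h
    exact H2 _ hm (min_le_right _ _) F o' hF hin hout h
  refine ⟨h4.1, ⟨fun hl => h5 (h4.2.mp hl), fun h => h4.2.mpr ?_⟩, fun h => ?_⟩
  · rw [twoFit_iff hF]
    exact sq_not_two h
  · by_contra hc
    exact h (h5 hc)

end Pool.Agent.Results.MP_6c2b1b_co.IsolatedSquare
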