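import Pool.Agent.H50.CP.TriIso
import Pool.Agent.H50.CP.TriS

set_option autoImplicit false

/-!
# Convex figures near an equilateral triangle: `S(F) = 2` exactly for equilateral triangles
-/

namespace Pool.Agent.Results.MP_6c2b1b_co.NearEquilateral

open Pool.Agent.H90.Clone Pool.Agent.H21.Tri Pool.Agent.H50.CP MeasureTheory Pointwise Set Complex

lemma det_ne_tri {u v : ℂ} (hu : u ≠ 0) (h1 : ‖u‖ = ‖v‖) (h2 : ‖u - v‖ = ‖u‖) :
    det u v ≠ 0 := by
  have h3 : 0 < Real.sqrt 3 := by positivity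
  have hpos : 0 < u.re ^ 2 + u.im ^ 2 := by
    have h := norm_pos_iff.mpr hu
    have e : ‖u‖ ^ 2 = u.re ^ 2 + u.im ^ 2 := by
      rw [Complex.sq_norm, Complex.normSq_apply]; ring
    rw [← e]; positivity
  have hpos' : 0 < v.re ^ 2 + v.im ^ 2 := by
    have h := norm_pos_iff.mpr hu
    have e : ‖v‖ ^ 2 = v.re ^ 2 + v.im ^ 2 := by
      rw [Complex.sq_norm, Complex.normSq_apply]; ring
    rw [← e, ← h1]; positivity
  rcases eq_om hu h1 h2 with h | h
  · rw [h]
    unfold det
    simp only [om, mul_re, mul_im]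
    intro h'
    have : Real.sqrt 3 / 2 * (u.re ^ 2 + u.im ^ 2) = 0 := by linear_combination h'
    have : 0 < Real.sqrt 3 / 2 * (u.re ^ 2 + u.im ^ 2) := by positivity
    linarith
  · rw [h]
    unfold det
    simp only [om, mul_re, mul_im]
    intro h'
    have : Real.sqrt 3 / 2 * (v.re ^ 2 + v.im ^ 2) = 0 := by linear_combination -h'
    have : 0 < Real.sqrt 3 / 2 * (v.re ^ 2 + v.im ^ 2) := by positivity
    linarith

/-- equilateral triangles have `S = 2` -/
lemma eqTri_least {F : Set ℂ} (h : IsEqTri F) : IsLeast {S : ℝ | Admissible F S} 2 := by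
  obtain ⟨o, u, v, hu, h1, h2, rfl⟩ := h
  have hd := det_ne_tri hu h1 h2
  exact ⟨admissible_two hd o, fun σ hσ => equi_lower hd h1 h2 o σ hσ⟩

/-- Let `T = Tri o u v` be an equilateral triangle. There is `ε > 0` such that every convex
figure `F` with `T ⊆ F` and `F` inside a translate of `(1 + ε) T` has `S(F) ≤ 2`, with
`S(F) = 2` if and only if `F` is itself an equilateral triangle; and if `F` is not an equilateral
triangle then two congruent clones of `F` of ratio more than `1/2` can be packed in `F`. -/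
theorem result (o u v : ℂ) (hu : u ≠ 0) (huv : ‖u‖ = ‖v‖) (htri : ‖u - v‖ = ‖u‖) :
    ∃ ε : ℝ, 0 < ε ∧ ∀ (F : Set ℂ) (o' : ℂ), IsConvexFigure F →
      Tri o u v ⊆ F → F ⊆ Tri o' ((1 + ε : ℝ) * u) ((1 + ε : ℝ) * v) →
        Admissible F 2 ∧ (IsLeast {S : ℝ | Admissible F S} 2 ↔ IsEqTri F) ∧
        (¬ IsEqTri F → TwoFit F) := by
  obtain ⟨e1, p1, H1⟩ := near_adm' (shape_tri (det_ne_tri hu huv htri))
  obtain ⟨e2, p2, H2⟩ := tri_iso o u v hu huv htri
  refine ⟨min e1 e2, lt_min p1 p2, fun F o' hF hin hout => ?_⟩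
  have hm : 0 ≤ min e1 e2 := (lt_min p1 p2).le
  have h1 := H1 _ hm (min_le_left _ _) F o o' hF (by rw [← Tri_add]; exact hin)
    (by rw [← tri_hom]; exact hout)
  have h4 := least_iff hF h1
  have h5 : ¬ TwoFit F → IsEqTri F := by
    intro h
    rw [twoFit_iff hF] at h
    exact H2 _ hm (min_le_right _ _) F o' hF hin hout h
  refine ⟨h4.1, ⟨fun hl => h5 (h4.2.mp hl), eqTri_least⟩, fun h => ?_⟩
  by_contra hc
  exact h (h5 hc)

end Pool.Agent.Results.MP_6c2b1b_co.NearEquilateral
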