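import Pool.Agent.H45.Trap.Fin

set_option autoImplicit false

/-!
# The clone packing constant of trapezoids, triangles and parallelograms
-/

namespace Pool.Agent.Results.MP_6c2b1b_co.Trapezoids

open Pool.Agent.H90.Clone Pool.Agent.H45.Trap Set Complex

/-- For every trapezoid `T = Trap o u v b` (`0 ≤ b ≤ 1`, triangles and parallelograms included):
(a) `S(T) ≤ 2`; (b) `S(T) = 2` if and only if `T` is an equilateral triangle or a square;
(c) otherwise `S(F) < 2` for every convex figure `F` close enough to `T`. -/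
theorem result (o u v : ℂ) (b : ℝ) (huv : LinearIndependent ℝ ![u, v]) (hb0 : 0 ≤ b)
    (hb1 : b ≤ 1) :
    Admissible (Trap o u v b) 2 ∧
    (IsLeast {S : ℝ | Admissible (Trap o u v b) S} 2 ↔ TriOrSquare u v b) ∧
    (¬ TriOrSquare u v b → ∃ ε : ℝ, 0 < ε ∧ ∀ (F : Set ℂ) (o' : ℂ),
      IsConvexFigure F → Trap o u v b ⊆ F →
      F ⊆ Trap o' ((1 + ε : ℝ) * u) ((1 + ε : ℝ) * v) b →
        ∃ σ : ℝ, σ < 2 ∧ Admissible F σ) :=
  trap_main o u v b huv hb0 hb1

end Pool.Agent.Results.MP_6c2b1b_co.Trapezoids
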