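import Pool.Agent.H45.TC.Fin

set_option autoImplicit false

/-!
# Packing two clones of a convex figure
-/

namespace Pool.Agent.Results.MP_6c2b1b_co.TwoClones

open Pool.Agent.H90.Clone Pool.Agent.H50.CP Pool.Agent.H45.TC Set Complex

/-- Let `F` be a convex figure. (a) Any two `F`-clones of total area `1` can be packed in an
`F`-clone of area `2`, and `2` is the least such number if and only if no two congruent clones of
ratio greater than `1/2` can be packed in `F`. (b) This is so for all regular polygons and all
figures of constant width; hence `S(F) ≥ 2` for them. (c) If no boundary segment of `F` ends in a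
corner it is so if and only if `F` has constant width. (d) If `F` is centrally symmetric it is so
if and only if `F` is a disc or a regular polygon. -/
theorem result (F : Set ℂ) (hF : IsConvexFigure F) :
    PairAdmissible F 2 ∧
    (IsLeast {S : ℝ | PairAdmissible F S} 2 ↔ ¬ TwoFit F) ∧
    (IsRegular F ∨ ConstantWidth F →
      IsLeast {S : ℝ | PairAdmissible F S} 2 ∧ ∀ S : ℝ, Admissible F S → 2 ≤ S) ∧
    (NoCornerSegment F → (IsLeast {S : ℝ | PairAdmissible F S} 2 ↔ ConstantWidth F)) ∧
    (CentrallySymmetric F →
      (IsLeast {S : ℝ | PairAdmissible F S} 2 ↔ IsDisc F ∨ IsRegular F)) :=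
  main hF

end Pool.Agent.Results.MP_6c2b1b_co.TwoClones
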